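import Pool.Agent.Q88.Roots.Defs

/-!
The sequence `h m x = ∑_{|w| = m} ‖T_w x‖²` and its logarithmic convexity.
-/

open scoped InnerProductSpace

set_option linter.unusedSectionVars false
set_option linter.deprecated false

namespace Q88.Roots

noncomputable section

variable {H : Type*} [NormedAddCommGroup H] [InnerProductSpace ℂ H] [CompleteSpace H] {d : ℕ}
  (T : Fin d → (H →L[ℂ] H))

/-- `h m x = ∑_{|w| = m} ‖T_w x‖²`. -/
def h : ℕ → H → ℝ
  | 0, x => ‖x‖ ^ 2
  | m + 1, x => ∑ i, h m (T i x)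

theorem h_zero (x : H) : h T 0 x = ‖x‖ ^ 2 := rfl

theorem h_succ (m : ℕ) (x : H) : h T (m + 1) x = ∑ i, h T m (T i x) := rfl

theorem h_nonneg (m : ℕ) (x : H) : 0 ≤ h T m x := by
  induction m generalizing x with
  | zero => exact sq_nonneg _
  | succ m ih => exact Finset.sum_nonneg fun i _ => ih _

theorem pow_zero' (w : Fin 0 → Fin d) : pow T 0 w = 1 := by
  unfold pow
  simp

theorem pow_succ' (n : ℕ) (w : Fin (n + 1) → Fin d) :
    pow T (n + 1) w = T (w 0) * pow T n (fun k => w k.succ) := by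
  unfold pow
  rw [List.ofFn_succ, List.prod_cons]

variable {T}

theorem pow_comm (hc : Commuting T) (n : ℕ) (w : Fin n → Fin d) (i : Fin d) :
    T i * pow T n w = pow T n w * T i := by
  induction n with
  | zero => rw [pow_zero', mul_one, one_mul]
  | succ n ih =>
    rw [pow_succ', ← mul_assoc, hc i (w 0), mul_assoc, ih, ← mul_assoc]

theorem h_add (hc : Commuting T) (m n : ℕ) (x : H) :
    h T (m + n) x = ∑ w : Fin n → Fin d, h T m (pow T n w x) := by
  induction n generalizing x with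
  | zero =>
    rw [Fintype.sum_unique, pow_zero']
    rfl
  | succ n ih =>
    rw [← add_assoc, h_succ]
    rw [Finset.sum_congr rfl (fun i _ => ih (T i x))]
    rw [← Fintype.sum_prod_type' (f := fun (i : Fin d) (w : Fin n → Fin d) =>
      h T m (pow T n w (T i x)))]
    refine Fintype.sum_equiv (Fin.consEquiv (fun _ => Fin d)) _ _ ?_
    rintro ⟨i, w⟩
    have h1 : pow T (n + 1) (Fin.cons i w) = T i * pow T n w := by
      rw [pow_succ']
      simp
    show h T m (pow T n w (T i x)) = h T m (pow T (n + 1) (Fin.cons i w) x)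
    rw [h1, pow_comm hc]
    rfl

theorem h_eq (hc : Commuting T) (n : ℕ) (x : H) :
    h T n x = ∑ w : Fin n → Fin d, ‖pow T n w x‖ ^ 2 := by
  have := h_add hc 0 n x
  rw [zero_add] at this
  exact this

/-- `∑ S j* S j`. -/
def gram {ι : Type*} [Fintype ι] (S : ι → (H →L[ℂ] H)) : H →L[ℂ] H := ∑ j, star (S j) * S j

theorem gram_apply {ι : Type*} [Fintype ι] (S : ι → (H →L[ℂ] H)) (x : H) :
    gram S x = ∑ j, star (S j) (S j x) := by
  unfold gram
  rw [ContinuousLinearMap.sum_apply]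
  rfl

theorem inner_star_left (A : H →L[ℂ] H) (x y : H) : ⟪star A x, y⟫_ℂ = ⟪x, A y⟫_ℂ :=
  ContinuousLinearMap.adjoint_inner_left A y x

theorem inner_star_right (A : H →L[ℂ] H) (x y : H) : ⟪x, star A y⟫_ℂ = ⟪A x, y⟫_ℂ :=
  ContinuousLinearMap.adjoint_inner_right A x y

theorem gram_inner {ι : Type*} [Fintype ι] (S : ι → (H →L[ℂ] H)) (x y : H) :
    ⟪x, gram S y⟫_ℂ = ∑ j, ⟪S j x, S j y⟫_ℂ := by
  rw [gram_apply, inner_sum]
  apply Finset.sum_congr rfl
  intro j _
  rw [inner_star_right]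

theorem gram_self {ι : Type*} [Fintype ι] (S : ι → (H →L[ℂ] H)) (x : H) :
    ⟪x, gram S x⟫_ℂ = ((∑ j, ‖S j x‖ ^ 2 : ℝ) : ℂ) := by
  rw [gram_inner]
  push_cast
  apply Finset.sum_congr rfl
  intro j _
  rw [inner_self_eq_norm_sq_to_K]
  rfl

theorem gram_star {ι : Type*} [Fintype ι] (S : ι → (H →L[ℂ] H)) : star (gram S) = gram S := by
  unfold gram
  rw [star_sum]
  apply Finset.sum_congr rfl
  intro j _
  rw [star_mul, star_star]

/-- `⟨A x, x⟩ = h 1 x`. -/
theorem A_inner (x : H) : ⟪x, gram T x⟫_ℂ = (h T 1 x : ℂ) := by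
  rw [gram_self]
  rfl

/-- The inequality `A² ≤ Θ²(1)`. -/
theorem A_sq_le (hc : Commuting T) (hh : JointlyHyponormal T) (x : H) :
    ‖gram T x‖ ^ 2 ≤ h T 2 x := by
  have h1 := hh (fun i => T i x)
  have h2 : ∑ i, ⟪T i x, ∑ j, comm T i j (T j x)⟫_ℂ =
      ((h T 2 x - ‖gram T x‖ ^ 2 : ℝ) : ℂ) := by
    have h3 : ∀ i, ⟪T i x, ∑ j, comm T i j (T j x)⟫_ℂ =
        ((∑ j, ‖T j (T i x)‖ ^ 2 : ℝ) : ℂ) - ⟪T i x, T i (gram T x)⟫_ℂ := by
      intro i
      have h4 : ∀ j, comm T i j (T j x) = star (T j) (T i (T j x)) - T i (star (T j) (T j x)) := by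
        intro j
        rfl
      rw [Finset.sum_congr rfl (fun j _ => h4 j), Finset.sum_sub_distrib, inner_sub_right,
        inner_sum, gram_apply, map_sum]
      congr 1
      push_cast
      apply Finset.sum_congr rfl
      intro j _
      rw [inner_star_right]
      have h5 : T i (T j x) = T j (T i x) := by
        have := congrArg (fun A : H →L[ℂ] H => A x) (hc i j)
        exact this
      rw [h5, inner_self_eq_norm_sq_to_K]
      rfl
    rw [Finset.sum_congr rfl (fun i _ => h3 i), Finset.sum_sub_distrib, ← gram_inner]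
    have h6 : ⟪x, gram T (gram T x)⟫_ℂ = ((‖gram T x‖ ^ 2 : ℝ) : ℂ) := by
      rw [← inner_star_left, gram_star, inner_self_eq_norm_sq_to_K]
      push_cast
      rfl
    rw [h6]
    push_cast
    congr 1
    have h7 : h T 2 x = ∑ i, ∑ j, ‖T j (T i x)‖ ^ 2 := rfl
    rw [h7]
    push_cast
    rfl
  rw [h2, Complex.ofReal_re] at h1
  linarith

/-- Logarithmic convexity. -/
theorem log_convex (hc : Commuting T) (hh : JointlyHyponormal T) (m : ℕ) (x : H) :
    h T (m + 1) x ^ 2 ≤ h T m x * h T (m + 2) x := by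
  induction m generalizing x with
  | zero =>
    have h1 := A_sq_le hc hh x
    have h2 : h T 1 x ≤ ‖x‖ * ‖gram T x‖ := by
      have h3 := norm_inner_le_norm (𝕜 := ℂ) x (gram T x)
      rw [A_inner, Complex.norm_real] at h3
      exact (le_abs_self _).trans h3
    have h4 := h_nonneg T 1 x
    calc h T 1 x ^ 2 ≤ (‖x‖ * ‖gram T x‖) ^ 2 := pow_le_pow_left₀ h4 h2 2
      _ = ‖x‖ ^ 2 * ‖gram T x‖ ^ 2 := by ring
      _ ≤ ‖x‖ ^ 2 * h T 2 x := mul_le_mul_of_nonneg_left h1 (sq_nonneg _)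
  | succ m ih =>
    exact Finset.sum_sq_le_sum_mul_sum_of_sq_le_mul Finset.univ (fun i _ => h_nonneg T m _)
      (fun i _ => h_nonneg T (m + 2) _) (fun i _ => ih _)

theorem h_zero_of (hc : Commuting T) (hh : JointlyHyponormal T) {m : ℕ} {x : H}
    (h0 : h T m x = 0) : h T (m + 1) x = 0 := by
  have := log_convex hc hh m x
  rw [h0, zero_mul] at this
  have h2 := sq_nonneg (h T (m + 1) x)
  exact pow_eq_zero_iff (by norm_num) |>.1 (le_antisymm this h2)

theorem h_zero_back (hc : Commuting T) (hh : JointlyHyponormal T) {m : ℕ} {x : H}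
    (h0 : h T (m + 1) x = 0) : h T 1 x = 0 := by
  induction m with
  | zero => exact h0
  | succ m ih =>
    apply ih
    have := log_convex hc hh m x
    rw [h0, mul_zero] at this
    have h2 := sq_nonneg (h T (m + 1) x)
    exact pow_eq_zero_iff (by norm_num) |>.1 (le_antisymm this h2)

theorem h_one_le (x : H) : h T 1 x ≤ ‖gram T‖ * ‖x‖ ^ 2 := by
  have h3 := norm_inner_le_norm (𝕜 := ℂ) x (gram T x)
  rw [A_inner, Complex.norm_real] at h3
  have h4 := (gram T).le_opNorm x
  have h5 := norm_nonneg x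
  calc h T 1 x ≤ ‖x‖ * ‖gram T x‖ := (le_abs_self _).trans h3
    _ ≤ ‖x‖ * (‖gram T‖ * ‖x‖) := mul_le_mul_of_nonneg_left h4 h5
    _ = _ := by ring

theorem h_succ_le (m : ℕ) (x : H) : h T (m + 1) x ≤ ‖gram T‖ * h T m x := by
  induction m generalizing x with
  | zero => exact h_one_le x
  | succ m ih =>
    rw [h_succ T (m + 1), h_succ T m, Finset.mul_sum]
    exact Finset.sum_le_sum fun i _ => ih _

/-- The real-variable lemma. -/
theorem real_lemma (a : ℕ → ℝ) (n : ℕ) (hn : 2 ≤ n) (hpos : ∀ m ≤ 2 * n, 0 < a m)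
    (hl : ∀ m, a (m + 1) ^ 2 ≤ a m * a (m + 2)) (ε : ℝ)
    (he : a (2 * n) * a 0 ≤ (1 + ε) * a n ^ 2) :
    a 2 * a 0 ≤ (1 + ε) * a 1 ^ 2 ∧ a 3 * a 1 ≤ (1 + ε) * a 2 ^ 2 := by
  -- the ratios
  let r : ℕ → ℝ := fun m => a (m + 1) / a m
  have hr : ∀ m, m + 1 ≤ 2 * n - 1 → r m ≤ r (m + 1) := by
    intro m hm
    have h0 := hpos m (by omega)
    have h1 := hpos (m + 1) (by omega)
    show a (m + 1) / a m ≤ a (m + 2) / a (m + 1)
    rw [div_le_div_iff₀ h0 h1]
    have := hl m
    nlinarith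
  have hmono : ∀ m k, m + k ≤ 2 * n - 1 → r m ≤ r (m + k) := by
    intro m k
    induction k with
    | zero => intro _; exact le_refl _
    | succ k ih =>
      intro hk
      exact (ih (by omega)).trans (hr (m + k) (by omega))
  have hrpos : ∀ m, m ≤ 2 * n - 1 → 0 < r m := by
    intro m hm
    exact div_pos (hpos _ (by omega)) (hpos _ (by omega))
  -- shifted ratio is increasing
  have hq : ∀ m, m + 1 ≤ n → a (n + 1) / a 1 ≤ a (n + (m + 1)) / a (m + 1) := by
    intro m
    induction m with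
    | zero => intro _; exact le_refl _
    | succ m ih =>
      intro hm
      refine (ih (by omega)).trans ?_
      have h1 := hmono (m + 1) n (by omega)
      have p1 := hpos (m + 1) (by omega)
      have p2 := hpos (m + 2) (by omega)
      have p3 := hpos (n + (m + 1)) (by omega)
      have h2 : a (m + 2) / a (m + 1) ≤ a (n + (m + 2)) / a (n + (m + 1)) := by
        have e : m + 1 + n = n + (m + 1) := by ring
        have h1' : a (m + 1 + 1) / a (m + 1) ≤ a (m + 1 + n + 1) / a (m + 1 + n) := h1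
        rw [e] at h1'
        exact h1'
      show a (n + (m + 1)) / a (m + 1) ≤ a (n + (m + 2)) / a (m + 2)
      rw [div_le_div_iff₀ p1 p3] at h2
      rw [div_le_div_iff₀ p1 p2]
      linarith
  have hqn := hq (n - 1) (by omega)
  have e1 : n - 1 + 1 = n := by omega
  rw [e1] at hqn
  have e2 : n + n = 2 * n := by ring
  rw [e2] at hqn
  have p0 := hpos 0 (by omega)
  have p1 := hpos 1 (by omega)
  have p2 := hpos 2 (by omega)
  have p3 := hpos 3 (by omega)
  have pn := hpos n (by omega)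
  have pn1 := hpos (n + 1) (by omega)
  -- r n ≤ (1 + ε) r 0
  have key : r n ≤ (1 + ε) * r 0 := by
    show a (n + 1) / a n ≤ (1 + ε) * (a 1 / a 0)
    have h1 : a (n + 1) * a n ≤ a (2 * n) * a 1 := by
      rw [div_le_div_iff₀ p1 pn] at hqn
      linarith
    rw [div_le_iff₀ pn, mul_div_assoc', div_mul_eq_mul_div, le_div_iff₀ p0]
    have h2 : a (n + 1) * a 0 * a n ≤ (1 + ε) * a 1 * a n * a n := by
      calc a (n + 1) * a 0 * a n = (a (n + 1) * a n) * a 0 := by ring
        _ ≤ (a (2 * n) * a 1) * a 0 := mul_le_mul_of_nonneg_right h1 p0.le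
        _ = (a (2 * n) * a 0) * a 1 := by ring
        _ ≤ ((1 + ε) * a n ^ 2) * a 1 := mul_le_mul_of_nonneg_right he p1.le
        _ = _ := by ring
    have h3 : a (n + 1) * a 0 ≤ (1 + ε) * a 1 * a n := le_of_mul_le_mul_right h2 pn
    linarith
  have hε : 0 ≤ 1 + ε := by
    have := hrpos n (by omega)
    have h0 := hrpos 0 (by omega)
    by_contra hneg
    push Not at hneg
    nlinarith
  constructor
  · have h1 : r 1 ≤ (1 + ε) * r 0 := by
      refine le_trans ?_ key
      have := hmono 1 (n - 1) (by omega)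
      have e : 1 + (n - 1) = n := by omega
      rwa [e] at this
    have h2 : a 2 / a 1 ≤ (1 + ε) * (a 1 / a 0) := h1
    rw [div_le_iff₀ p1, mul_div_assoc', div_mul_eq_mul_div, le_div_iff₀ p0] at h2
    linarith
  · have h1 : r 2 ≤ (1 + ε) * r 1 := by
      have h3 : r 2 ≤ r n := by
        have := hmono 2 (n - 2) (by omega)
        have e : 2 + (n - 2) = n := by omega
        rwa [e] at this
      have h4 : r 0 ≤ r 1 := hr 0 (by omega)
      calc r 2 ≤ r n := h3
        _ ≤ (1 + ε) * r 0 := key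
        _ ≤ _ := mul_le_mul_of_nonneg_left h4 hε
    have h2 : a 3 / a 2 ≤ (1 + ε) * (a 2 / a 1) := h1
    rw [div_le_iff₀ p2, mul_div_assoc', div_mul_eq_mul_div, le_div_iff₀ p1] at h2
    linarith

end

end Q88.Roots
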