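import Mathlib

/-!
# Powers of commuting tuples of operators, joint hyponormality, spherical quasinormality

* `Commuting T` : `T i T j = T j T i`.
* `JointlyHyponormal T` : the operator matrix with entries `[T j*, T i]` is positive.
* `SphericallyQuasinormal S` : every `S i` commutes with `∑ S j* S j`.
* `pow T n` : the tuple of all words of length `n` in the `T i`.
-/

open scoped InnerProductSpace

namespace Q88.Roots

noncomputable section

variable {H : Type*} [NormedAddCommGroup H] [InnerProductSpace ℂ H] [CompleteSpace H]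

/-- The tuple is commuting. -/
def Commuting {d : ℕ} (T : Fin d → (H →L[ℂ] H)) : Prop := ∀ i j, T i * T j = T j * T i

/-- The `(i, j)` entry of the self-commutator of the tuple: `[T j*, T i]`. -/
def comm {d : ℕ} (T : Fin d → (H →L[ℂ] H)) (i j : Fin d) : H →L[ℂ] H :=
  star (T j) * T i - T i * star (T j)

/-- The operator matrix with entries `[T j*, T i]` is positive on `H ⊕ ⋯ ⊕ H`. -/
def JointlyHyponormal {d : ℕ} (T : Fin d → (H →L[ℂ] H)) : Prop :=
  ∀ x : Fin d → H, 0 ≤ (∑ i, ⟪x i, ∑ j, comm T i j (x j)⟫_ℂ).re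

/-- Every `S i` commutes with `∑ S j* S j`. -/
def SphericallyQuasinormal {ι : Type*} [Fintype ι] (S : ι → (H →L[ℂ] H)) : Prop :=
  ∀ i, S i * (∑ j, star (S j) * S j) = (∑ j, star (S j) * S j) * S i

/-- The `n`-th power of the tuple: the tuple of all words `T (w 0) T (w 1) ⋯ T (w (n - 1))`. -/
def pow {d : ℕ} (T : Fin d → (H →L[ℂ] H)) (n : ℕ) (w : Fin n → Fin d) : H →L[ℂ] H :=
  (List.ofFn fun k => T (w k)).prod

end

end Q88.Roots
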