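import Mathlib

/-!
A slicing argument: an operator that is small on approximate eigenvectors of a positive operator
vanishes on its range.
-/

open scoped InnerProductSpace

set_option linter.unusedVariables false
set_option linter.deprecated false

namespace Q88.Roots

noncomputable section

/-- Truncation to `[0, 1]`. -/
def rho (u : ℝ) : ℝ := min 1 (max 0 u)

theorem rho_cont : Continuous rho := continuous_const.min (continuous_const.max continuous_id)

theorem rho_nonneg (u : ℝ) : 0 ≤ rho u := le_min zero_le_one (le_max_left _ _)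

theorem rho_le_one (u : ℝ) : rho u ≤ 1 := min_le_left _ _

theorem rho_mono {u v : ℝ} (h : u ≤ v) : rho u ≤ rho v := min_le_min le_rfl (max_le_max le_rfl h)

theorem rho_of_nonpos {u : ℝ} (h : u ≤ 0) : rho u = 0 := by
  unfold rho
  rw [max_eq_left h]
  exact min_eq_right zero_le_one

theorem rho_of_one_le {u : ℝ} (h : 1 ≤ u) : rho u = 1 := by
  unfold rho
  rw [max_eq_right (by linarith), min_eq_left h]

/-- The slice functions. -/
def sl (s δ : ℝ) (k : ℕ) (t : ℝ) : ℝ := rho ((t - s) / δ - k) - rho ((t - s) / δ - (k + 1))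

theorem sl_cont (s δ : ℝ) (k : ℕ) : Continuous (sl s δ k) := by
  unfold sl
  apply Continuous.sub
  · exact rho_cont.comp (((continuous_id.sub continuous_const).div_const δ).sub continuous_const)
  · exact rho_cont.comp (((continuous_id.sub continuous_const).div_const δ).sub continuous_const)

theorem sl_nonneg (s δ : ℝ) (k : ℕ) (t : ℝ) : 0 ≤ sl s δ k t := by
  unfold sl
  have : rho ((t - s) / δ - (k + 1)) ≤ rho ((t - s) / δ - k) := rho_mono (by linarith)
  linarith

theorem sl_le_one (s δ : ℝ) (k : ℕ) (t : ℝ) : sl s δ k t ≤ 1 := by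
  unfold sl
  have h1 := rho_le_one ((t - s) / δ - k)
  have h2 := rho_nonneg ((t - s) / δ - (k + 1))
  linarith

theorem sl_sum (s δ : ℝ) (N : ℕ) (t : ℝ) :
    ∑ k ∈ Finset.range N, sl s δ k t = rho ((t - s) / δ) - rho ((t - s) / δ - N) := by
  induction N with
  | zero => simp
  | succ N ih =>
    rw [Finset.sum_range_succ, ih]
    unfold sl
    push_cast
    ring

theorem sl_supp {s δ : ℝ} (hδ : 0 < δ) (k : ℕ) (t : ℝ) (h : δ < |t - (s + (k + 1) * δ)|) :
    sl s δ k t = 0 := by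
  unfold sl
  rcases lt_abs.1 h with h | h
  · have h1 : (k : ℝ) + 1 + 1 < (t - s) / δ := by
      rw [lt_div_iff₀ hδ]
      linarith
    rw [rho_of_one_le (by linarith), rho_of_one_le (by linarith), sub_self]
  · have h1 : (t - s) / δ < k := by
      rw [div_lt_iff₀ hδ]
      linarith
    rw [rho_of_nonpos (by linarith), rho_of_nonpos (by linarith), sub_self]

/-- Truncation of `(t - c) / δ` to `[-1, 1]`. -/
def cl (c δ : ℝ) (t : ℝ) : ℝ := max (-1) (min 1 ((t - c) / δ))

theorem cl_cont (c δ : ℝ) : Continuous (cl c δ) := by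
  unfold cl
  exact continuous_const.max (continuous_const.min ((continuous_id.sub continuous_const).div_const δ))

theorem cl_abs (c δ t : ℝ) : |cl c δ t| ≤ 1 := by
  unfold cl
  rw [abs_le]
  constructor
  · exact le_max_left _ _
  · exact max_le (by norm_num) (min_le_left _ _)

theorem cl_mul {s δ : ℝ} (hδ : 0 < δ) (k : ℕ) (t : ℝ) :
    (t - (s + (k + 1) * δ)) * sl s δ k t = δ * (cl (s + (k + 1) * δ) δ t * sl s δ k t) := by
  by_cases h : δ < |t - (s + (k + 1) * δ)|
  · rw [sl_supp hδ k t h]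
    ring
  · push Not at h
    have h1 : |(t - (s + (k + 1) * δ)) / δ| ≤ 1 := by
      rw [abs_div, abs_of_pos hδ, div_le_one hδ]
      exact h
    rw [abs_le] at h1
    have h2 : cl (s + (k + 1) * δ) δ t = (t - (s + (k + 1) * δ)) / δ := by
      unfold cl
      rw [min_eq_right h1.2, max_eq_right h1.1]
    rw [h2]
    field_simp

variable {H : Type*} [NormedAddCommGroup H] [InnerProductSpace ℂ H] [CompleteSpace H]

theorem cfc_mul_apply {B : H →L[ℂ] H} (hB : IsSelfAdjoint B) {f g : ℝ → ℝ} (hf : Continuous f)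
    (hg : Continuous g) (z : H) :
    cfc (fun t => f t * g t) B z = cfc f B (cfc g B z) := by
  rw [cfc_mul f g B hf.continuousOn hg.continuousOn]
  rfl

theorem slice_near {B : H →L[ℂ] H} (hB : IsSelfAdjoint B) {s δ : ℝ} (hδ : 0 < δ) (k : ℕ) (z : H) :
    ‖B (cfc (sl s δ k) B z) - ((s + (k + 1) * δ : ℝ) : ℂ) • cfc (sl s δ k) B z‖ ≤
      δ * ‖cfc (sl s δ k) B z‖ := by
  set c := s + (k + 1) * δ with hc
  have h1 : B (cfc (sl s δ k) B z) - (c : ℂ) • cfc (sl s δ k) B z =
      cfc (fun t => (t - c) * sl s δ k t) B z := by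
    have h2 : (fun t : ℝ => (t - c) * sl s δ k t) = fun t => t * sl s δ k t - c * sl s δ k t := by
      funext t
      ring
    rw [h2, cfc_sub (fun t => t * sl s δ k t) (fun t => c * sl s δ k t) B
      (continuous_id.mul (sl_cont s δ k)).continuousOn
      (continuous_const.mul (sl_cont s δ k)).continuousOn]
    rw [ContinuousLinearMap.sub_apply, cfc_mul_apply hB (f := fun t => t) (g := sl s δ k)
      continuous_id (sl_cont s δ k),
      cfc_const_mul c (sl s δ k) B (sl_cont s δ k).continuousOn]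
    congr 1
    rw [cfc_id' ℝ B]
  rw [h1]
  have h3 : (fun t : ℝ => (t - c) * sl s δ k t) = fun t => δ * (cl c δ t * sl s δ k t) := by
    funext t
    exact cl_mul hδ k t
  rw [h3, cfc_const_mul δ (fun t => cl c δ t * sl s δ k t) B
    ((cl_cont c δ).mul (sl_cont s δ k)).continuousOn]
  rw [ContinuousLinearMap.smul_apply, cfc_mul_apply hB (cl_cont c δ) (sl_cont s δ k),
    norm_smul, Real.norm_eq_abs, abs_of_pos hδ]
  apply mul_le_mul_of_nonneg_left _ hδ.le
  have h4 : ‖cfc (cl c δ) B‖ ≤ 1 := norm_cfc_le zero_le_one (fun t _ => cl_abs c δ t)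
  calc ‖cfc (cl c δ) B (cfc (sl s δ k) B z)‖ ≤ ‖cfc (cl c δ) B‖ * ‖cfc (sl s δ k) B z‖ :=
        ContinuousLinearMap.le_opNorm _ _
    _ ≤ 1 * ‖cfc (sl s δ k) B z‖ := mul_le_mul_of_nonneg_right h4 (norm_nonneg _)
    _ = _ := one_mul _

theorem cfc_norm_sq {B : H →L[ℂ] H} (hB : IsSelfAdjoint B) {f : ℝ → ℝ} (hf : Continuous f)
    (z : H) : ‖cfc f B z‖ ^ 2 = (⟪z, cfc (fun t => f t * f t) B z⟫_ℂ).re := by
  have h1 : IsSelfAdjoint (cfc f B) := cfc_predicate f B
  have h2 : ⟪z, cfc f B (cfc f B z)⟫_ℂ = ⟪cfc f B z, cfc f B z⟫_ℂ := by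
    have h3 : star (cfc f B) = cfc f B := h1
    conv_lhs => rw [← h3]
    rw [ContinuousLinearMap.star_eq_adjoint, ContinuousLinearMap.adjoint_inner_right, ← 
      ContinuousLinearMap.star_eq_adjoint, h3]
  rw [cfc_mul_apply hB hf hf, h2, inner_self_eq_norm_sq_to_K]
  norm_cast

theorem slice_sum_sq {B : H →L[ℂ] H} (hB : IsSelfAdjoint B) (s δ : ℝ) (N : ℕ) (z : H) :
    ∑ k ∈ Finset.range N, ‖cfc (sl s δ k) B z‖ ^ 2 ≤ ‖z‖ ^ 2 := by
  have h1 : ∑ k ∈ Finset.range N, ‖cfc (sl s δ k) B z‖ ^ 2 =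
      (⟪z, cfc (fun t => ∑ k ∈ Finset.range N, sl s δ k t * sl s δ k t) B z⟫_ℂ).re := by
    have h2 : cfc (fun t => ∑ k ∈ Finset.range N, sl s δ k t * sl s δ k t) B =
        ∑ k ∈ Finset.range N, cfc (fun t => sl s δ k t * sl s δ k t) B := by
      have := cfc_sum (fun k t => sl s δ k t * sl s δ k t) B (Finset.range N)
        (fun k _ => ((sl_cont s δ k).mul (sl_cont s δ k)).continuousOn)
      rw [← this]
      congr 1
      funext t
      simp
    rw [h2, ContinuousLinearMap.sum_apply, inner_sum, Complex.re_sum]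
    apply Finset.sum_congr rfl
    intro k _
    exact cfc_norm_sq hB (sl_cont s δ k) z
  rw [h1]
  have h3 : ‖cfc (fun t => ∑ k ∈ Finset.range N, sl s δ k t * sl s δ k t) B‖ ≤ 1 := by
    apply norm_cfc_le zero_le_one
    intro t _
    rw [Real.norm_eq_abs, abs_of_nonneg (Finset.sum_nonneg fun k _ => mul_self_nonneg _)]
    calc ∑ k ∈ Finset.range N, sl s δ k t * sl s δ k t ≤ ∑ k ∈ Finset.range N, sl s δ k t := by
          apply Finset.sum_le_sum
          intro k _
          have := sl_nonneg s δ k t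
          have := sl_le_one s δ k t
          nlinarith
      _ = rho ((t - s) / δ) - rho ((t - s) / δ - N) := sl_sum s δ N t
      _ ≤ 1 := by
          have := rho_le_one ((t - s) / δ)
          have := rho_nonneg ((t - s) / δ - N)
          linarith
  have h4 := norm_inner_le_norm (𝕜 := ℂ) z
    (cfc (fun t => ∑ k ∈ Finset.range N, sl s δ k t * sl s δ k t) B z)
  have h5 := (cfc (fun t => ∑ k ∈ Finset.range N, sl s δ k t * sl s δ k t) B).le_opNorm z
  have h6 := Complex.re_le_norm (⟪z, cfc (fun t => ∑ k ∈ Finset.range N,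
    sl s δ k t * sl s δ k t) B z⟫_ℂ)
  have h7 := norm_nonneg z
  calc _ ≤ _ := h6
    _ ≤ _ := h4
    _ ≤ ‖z‖ * (1 * ‖z‖) := by
        apply mul_le_mul_of_nonneg_left _ h7
        exact h5.trans (mul_le_mul_of_nonneg_right h3 h7)
    _ = ‖z‖ ^ 2 := by ring

theorem slice_bound {B D : H →L[ℂ] H} (hB : IsSelfAdjoint B) {s δ K : ℝ} (hK : 0 ≤ K)
    (hδ : 0 < δ) (hs : 0 < s)
    (hD : ∀ c : ℝ, s ≤ c → ∀ y : H, ‖B y - (c : ℂ) • y‖ ≤ δ * ‖y‖ → ‖D y‖ ≤ K * δ * ‖y‖)
    (z : H) :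
    ‖D (cfc (fun t => rho ((t - s) / δ)) B z)‖ ≤ K * Real.sqrt (δ * ‖B‖ + δ ^ 2) * ‖z‖ := by
  set N := ⌈‖B‖ / δ⌉₊ with hN
  have h1 : cfc (fun t => rho ((t - s) / δ)) B =
      ∑ k ∈ Finset.range N, cfc (sl s δ k) B := by
    have h2 := cfc_sum (fun k t => sl s δ k t) B (Finset.range N)
        (fun k _ => (sl_cont s δ k).continuousOn)
    rw [← h2]
    apply cfc_congr
    intro t ht
    have h3 : (∑ k ∈ Finset.range N, fun t => sl s δ k t) t = ∑ k ∈ Finset.range N, sl s δ k t := by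
      simp
    show rho ((t - s) / δ) = (∑ k ∈ Finset.range N, fun t => sl s δ k t) t
    rw [h3, sl_sum]
    have h4 : t ≤ ‖B‖ := by
      have e1 := spectrum.norm_le_norm_mul_of_mem ht
      have e2 : ‖(1 : H →L[ℂ] H)‖ ≤ 1 := ContinuousLinearMap.norm_id_le
      have e3 := norm_nonneg B
      have e4 : t ≤ ‖t‖ := le_abs_self t
      nlinarith
    have h5 : (t - s) / δ - N ≤ 0 := by
      have h6 : ‖B‖ / δ ≤ N := Nat.le_ceil _
      have h7 : (t - s) / δ ≤ ‖B‖ / δ := div_le_div_of_nonneg_right (by linarith) hδ.le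
      linarith
    rw [rho_of_nonpos h5, sub_zero]
  rw [h1, ContinuousLinearMap.sum_apply, map_sum]
  have h2 : ∀ k, ‖D (cfc (sl s δ k) B z)‖ ≤ K * δ * ‖cfc (sl s δ k) B z‖ := by
    intro k
    apply hD (s + (k + 1) * δ)
    · have : 0 ≤ ((k : ℝ) + 1) * δ := by positivity
      linarith
    · exact slice_near hB hδ k z
  have h3 : (∑ k ∈ Finset.range N, ‖cfc (sl s δ k) B z‖) ^ 2 ≤ N * ‖z‖ ^ 2 := by
    have h4 := @Finset.sum_mul_sq_le_sq_mul_sq ℕ ℝ _ _ _ _ (Finset.range N) (fun _ => (1 : ℝ))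
      (fun k => ‖cfc (sl s δ k) B z‖)
    simp only [one_mul, one_pow, Finset.sum_const, Finset.card_range, nsmul_eq_mul, mul_one] at h4
    refine h4.trans ?_
    apply mul_le_mul_of_nonneg_left (slice_sum_sq hB s δ N z)
    positivity
  have h4 : (N : ℝ) ≤ ‖B‖ / δ + 1 := (Nat.ceil_lt_add_one (by positivity)).le
  have h5 : δ * ∑ k ∈ Finset.range N, ‖cfc (sl s δ k) B z‖ ≤
      Real.sqrt (δ * ‖B‖ + δ ^ 2) * ‖z‖ := by
    have h6 : 0 ≤ ∑ k ∈ Finset.range N, ‖cfc (sl s δ k) B z‖ :=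
      Finset.sum_nonneg fun k _ => norm_nonneg _
    have h7 : (δ * ∑ k ∈ Finset.range N, ‖cfc (sl s δ k) B z‖) ^ 2 ≤
        (Real.sqrt (δ * ‖B‖ + δ ^ 2) * ‖z‖) ^ 2 := by
      rw [mul_pow, mul_pow, Real.sq_sqrt (by positivity)]
      calc δ ^ 2 * (∑ k ∈ Finset.range N, ‖cfc (sl s δ k) B z‖) ^ 2 ≤
          δ ^ 2 * ((‖B‖ / δ + 1) * ‖z‖ ^ 2) := by
            apply mul_le_mul_of_nonneg_left _ (by positivity)
            exact h3.trans (mul_le_mul_of_nonneg_right h4 (by positivity))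
        _ = (δ * ‖B‖ + δ ^ 2) * ‖z‖ ^ 2 := by
            field_simp
    exact (pow_le_pow_iff_left₀ (by positivity) (by positivity) (by norm_num)).1 h7
  calc ‖∑ k ∈ Finset.range N, D (cfc (sl s δ k) B z)‖ ≤
      ∑ k ∈ Finset.range N, K * δ * ‖cfc (sl s δ k) B z‖ :=
        (norm_sum_le _ _).trans (Finset.sum_le_sum fun k _ => h2 k)
    _ = K * (δ * ∑ k ∈ Finset.range N, ‖cfc (sl s δ k) B z‖) := by
        rw [← Finset.mul_sum]
        ring
    _ ≤ K * (Real.sqrt (δ * ‖B‖ + δ ^ 2) * ‖z‖) := mul_le_mul_of_nonneg_left h5 hK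
    _ = _ := by ring

theorem slice_main {B D : H →L[ℂ] H} (hB : IsSelfAdjoint B) (hpos : ∀ t ∈ spectrum ℝ B, 0 ≤ t)
    (hD : ∀ s : ℝ, 0 < s → ∃ K : ℝ, 0 ≤ K ∧ ∀ δ : ℝ, 0 < δ → 2 * δ ≤ s → ∀ c : ℝ, s ≤ c →
      ∀ y : H, ‖B y - (c : ℂ) • y‖ ≤ δ * ‖y‖ → ‖D y‖ ≤ K * δ * ‖y‖) : D * B = 0 := by
  ext x
  show D (B x) = 0
  have key : ∀ s : ℝ, 0 < s → ‖D (B x)‖ ≤ ‖D‖ * s * ‖x‖ := by
    intro s hs
    obtain ⟨K, hK, hKD⟩ := hD s hs
    have h1 : ∀ δ : ℝ, 0 < δ → 2 * δ ≤ s → ‖D (B x)‖ ≤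
        K * Real.sqrt (δ * ‖B‖ + δ ^ 2) * ‖B x‖ + ‖D‖ * (s + δ) * ‖x‖ := by
      intro δ hδ hδs
      have h2 := slice_bound hB hK hδ hs (hKD δ hδ hδs) (B x)
      have hcont : Continuous fun t : ℝ => rho ((t - s) / δ) :=
        rho_cont.comp ((continuous_id.sub continuous_const).div_const δ)
      have h3 : B x = cfc (fun t => rho ((t - s) / δ)) B (B x) +
          cfc (fun t => (1 - rho ((t - s) / δ)) * t) B x := by
        have h4 : cfc (fun t => (1 - rho ((t - s) / δ)) * t) B x =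
            cfc (fun t => 1 - rho ((t - s) / δ)) B (B x) := by
          rw [cfc_mul_apply hB (f := fun t => 1 - rho ((t - s) / δ)) (g := fun t => t)
            (continuous_const.sub hcont) continuous_id, cfc_id' ℝ B]
        rw [h4, cfc_sub (fun _ => (1 : ℝ)) (fun t => rho ((t - s) / δ)) B
          continuousOn_const hcont.continuousOn, ContinuousLinearMap.sub_apply,
          cfc_const_one ℝ B]
        show B x = _ + (B x - _)
        abel
      have h5 : ‖cfc (fun t => (1 - rho ((t - s) / δ)) * t) B‖ ≤ s + δ := by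
        apply norm_cfc_le (by linarith)
        intro t ht
        have ht0 := hpos t ht
        have r1 := rho_le_one ((t - s) / δ)
        have r0 := rho_nonneg ((t - s) / δ)
        rw [Real.norm_eq_abs, abs_of_nonneg (mul_nonneg (by linarith) ht0)]
        by_cases hts : s + δ ≤ t
        · have : 1 ≤ (t - s) / δ := by
            rw [le_div_iff₀ hδ]
            linarith
          rw [rho_of_one_le this]
          linarith
        · push Not at hts
          nlinarith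
      have h6 := (cfc (fun t => (1 - rho ((t - s) / δ)) * t) B).le_opNorm x
      have h7 : ‖D (cfc (fun t => (1 - rho ((t - s) / δ)) * t) B x)‖ ≤ ‖D‖ * (s + δ) * ‖x‖ := by
        calc ‖D (cfc (fun t => (1 - rho ((t - s) / δ)) * t) B x)‖ ≤
            ‖D‖ * ‖cfc (fun t => (1 - rho ((t - s) / δ)) * t) B x‖ := D.le_opNorm _
          _ ≤ ‖D‖ * ((s + δ) * ‖x‖) := by
              apply mul_le_mul_of_nonneg_left _ (norm_nonneg _)
              exact h6.trans (mul_le_mul_of_nonneg_right h5 (norm_nonneg _))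
          _ = _ := by ring
      calc ‖D (B x)‖ = ‖D (cfc (fun t => rho ((t - s) / δ)) B (B x)) +
          D (cfc (fun t => (1 - rho ((t - s) / δ)) * t) B x)‖ := by
            rw [← map_add, ← h3]
        _ ≤ _ := (norm_add_le _ _).trans (add_le_add h2 h7)
    have h8 : Filter.Tendsto (fun δ : ℝ => K * Real.sqrt (δ * ‖B‖ + δ ^ 2) * ‖B x‖ +
        ‖D‖ * (s + δ) * ‖x‖) (nhdsWithin 0 (Set.Ioi 0)) (nhds (‖D‖ * s * ‖x‖)) := by
      have h9 : Continuous (fun δ : ℝ => K * Real.sqrt (δ * ‖B‖ + δ ^ 2) * ‖B x‖ +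
          ‖D‖ * (s + δ) * ‖x‖) := by fun_prop
      have h10 := (h9.tendsto 0).mono_left (nhdsWithin_le_nhds (s := Set.Ioi (0 : ℝ)))
      simpa using h10
    apply ge_of_tendsto h8
    have h11 : Set.Ioo (0 : ℝ) (s / 2) ∈ nhdsWithin (0 : ℝ) (Set.Ioi 0) :=
      Ioo_mem_nhdsGT (by linarith)
    filter_upwards [h11] with δ hδ
    exact h1 δ hδ.1 (by linarith [hδ.2])
  have h12 : ‖D (B x)‖ ≤ 0 := by
    have h13 : Filter.Tendsto (fun s : ℝ => ‖D‖ * s * ‖x‖) (nhdsWithin 0 (Set.Ioi 0))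
        (nhds 0) := by
      have h14 : Continuous (fun s : ℝ => ‖D‖ * s * ‖x‖) := by fun_prop
      have h15 := (h14.tendsto 0).mono_left (nhdsWithin_le_nhds (s := Set.Ioi (0 : ℝ)))
      simpa using h15
    apply ge_of_tendsto h13
    filter_upwards [self_mem_nhdsWithin] with s hs
    exact key s hs
  exact norm_le_zero_iff.1 h12

end

end Q88.Roots
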