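import Pool.Agent.Q88.Roots.Core
import Pool.Agent.Q88.Roots.Slice

/-!
Hyponormal roots of spherically quasinormal tuples.
-/

open scoped InnerProductSpace

set_option linter.unusedSectionVars false
set_option linter.deprecated false

namespace Q88.Roots

noncomputable section

variable {H : Type*} [NormedAddCommGroup H] [InnerProductSpace ℂ H] [CompleteSpace H] {d : ℕ}
  {T : Fin d → (H →L[ℂ] H)}

/-- `‖A y - α y‖² ≤ h 2 - 2 α h 1 + α² h 0`. -/
theorem var_le (hc : Commuting T) (hh : JointlyHyponormal T) (α : ℝ) (y : H) :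
    ‖gram T y - (α : ℂ) • y‖ ^ 2 ≤ h T 2 y - 2 * α * h T 1 y + α ^ 2 * h T 0 y := by
  rw [@norm_sub_sq ℂ, norm_smul, mul_pow, inner_smul_right]
  have h1 := A_sq_le hc hh y
  have h2 : (⟪gram T y, y⟫_ℂ) = (h T 1 y : ℂ) := by
    rw [← inner_conj_symm, A_inner, Complex.conj_ofReal]
  rw [h2]
  have h3 : RCLike.re ((α : ℂ) * (h T 1 y : ℂ)) = α * h T 1 y := by
    show ((α : ℂ) * (h T 1 y : ℂ)).re = _
    rw [← Complex.ofReal_mul, Complex.ofReal_re]
  have h4 : ‖(α : ℂ)‖ ^ 2 = α ^ 2 := by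
    rw [Complex.norm_real, Real.norm_eq_abs, sq_abs]
  rw [h3, h4]
  show _ ≤ h T 2 y - 2 * α * h T 1 y + α ^ 2 * ‖y‖ ^ 2
  linarith

/-- The commutator of `A` and `T i`. -/
def cm (T : Fin d → (H →L[ℂ] H)) (i : Fin d) : H →L[ℂ] H := gram T * T i - T i * gram T

theorem norm_T_le (i : Fin d) (y : H) : ‖T i y‖ ≤ Real.sqrt ‖gram T‖ * ‖y‖ := by
  have h1 : ‖T i y‖ ^ 2 ≤ h T 1 y := by
    have : h T 1 y = ∑ j, ‖T j y‖ ^ 2 := rfl
    rw [this]
    exact Finset.single_le_sum (f := fun j => ‖T j y‖ ^ 2) (fun j _ => sq_nonneg _)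
      (Finset.mem_univ i)
  have h2 := h_one_le (T := T) y
  have h3 : ‖T i y‖ ^ 2 ≤ (Real.sqrt ‖gram T‖ * ‖y‖) ^ 2 := by
    rw [mul_pow, Real.sq_sqrt (norm_nonneg _)]
    exact h1.trans h2
  exact (pow_le_pow_iff_left₀ (norm_nonneg _) (by positivity) (by norm_num)).1 h3

theorem est1 (hc : Commuting T) (hh : JointlyHyponormal T) (i : Fin d) (y : H)
    (hpos : ∀ m ≤ 3, 0 < h T m y) (s : ℝ) (hs : 0 ≤ s) (hs1 : s ≤ 1)
    (e1 : h T 2 y * h T 0 y ≤ (1 + s ^ 2) * h T 1 y ^ 2)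
    (e2 : h T 3 y * h T 1 y ≤ (1 + s ^ 2) * h T 2 y ^ 2) :
    ‖cm T i y‖ ≤ 3 * (‖gram T‖ * Real.sqrt ‖gram T‖) * s * ‖y‖ := by
  set M := ‖gram T‖ with hM
  set q := Real.sqrt M with hq
  have hM0 : 0 ≤ M := norm_nonneg _
  have hq0 : 0 ≤ q := Real.sqrt_nonneg _
  have hqM : q ^ 2 = M := Real.sq_sqrt hM0
  have p0 := hpos 0 (by omega)
  have p1 := hpos 1 (by omega)
  have p2 := hpos 2 (by omega)
  have p3 := hpos 3 (by omega)
  have m1 : h T 1 y ≤ M * h T 0 y := h_succ_le 0 y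
  have m2 : h T 2 y ≤ M * h T 1 y := h_succ_le 1 y
  have hy : h T 0 y = ‖y‖ ^ 2 := rfl
  set α := h T 1 y / h T 0 y with hα
  set β := h T 2 y / h T 1 y with hβ
  have hαM : α ≤ M := (div_le_iff₀ p0).2 m1
  have hα0 : 0 ≤ α := by positivity
  -- first vector
  have v1 : ‖gram T y - (α : ℂ) • y‖ ≤ s * M * ‖y‖ := by
    have h1 := var_le hc hh α y
    have h2 : h T 2 y - 2 * α * h T 1 y + α ^ 2 * h T 0 y ≤ (s * M * ‖y‖) ^ 2 := by
      have h3 : h T 2 y - 2 * α * h T 1 y + α ^ 2 * h T 0 y = h T 2 y - h T 1 y ^ 2 / h T 0 y := by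
        rw [hα]
        field_simp
        ring
      have h4 : h T 2 y ≤ (1 + s ^ 2) * (h T 1 y ^ 2 / h T 0 y) := by
        rw [mul_div_assoc', le_div_iff₀ p0]
        exact e1
      have h5 : h T 1 y ^ 2 / h T 0 y ≤ M ^ 2 * ‖y‖ ^ 2 := by
        rw [div_le_iff₀ p0, ← hy]
        have : h T 1 y ^ 2 ≤ (M * h T 0 y) ^ 2 := pow_le_pow_left₀ p1.le m1 2
        calc h T 1 y ^ 2 ≤ (M * h T 0 y) ^ 2 := this
          _ = _ := by ring
      rw [h3]
      calc h T 2 y - h T 1 y ^ 2 / h T 0 y ≤ s ^ 2 * (h T 1 y ^ 2 / h T 0 y) := by linarith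
        _ ≤ s ^ 2 * (M ^ 2 * ‖y‖ ^ 2) := mul_le_mul_of_nonneg_left h5 (sq_nonneg s)
        _ = _ := by ring
    exact (pow_le_pow_iff_left₀ (norm_nonneg _) (by positivity) (by norm_num)).1 (h1.trans h2)
  -- second vector
  have v2 : ‖gram T (T i y) - (β : ℂ) • T i y‖ ≤ s * M * q * ‖y‖ := by
    have h1 : ‖gram T (T i y) - (β : ℂ) • T i y‖ ^ 2 ≤
        h T 3 y - 2 * β * h T 2 y + β ^ 2 * h T 1 y := by
      have h2 : ∑ j, ‖gram T (T j y) - (β : ℂ) • T j y‖ ^ 2 ≤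
          ∑ j, (h T 2 (T j y) - 2 * β * h T 1 (T j y) + β ^ 2 * h T 0 (T j y)) :=
        Finset.sum_le_sum fun j _ => var_le hc hh β (T j y)
      rw [Finset.sum_add_distrib, Finset.sum_sub_distrib, ← Finset.mul_sum, ← Finset.mul_sum] at h2
      refine le_trans ?_ h2
      exact Finset.single_le_sum (f := fun j => ‖gram T (T j y) - (β : ℂ) • T j y‖ ^ 2)
        (fun j _ => sq_nonneg _) (Finset.mem_univ i)
    have h2 : h T 3 y - 2 * β * h T 2 y + β ^ 2 * h T 1 y ≤ (s * M * q * ‖y‖) ^ 2 := by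
      have h3 : h T 3 y - 2 * β * h T 2 y + β ^ 2 * h T 1 y = h T 3 y - h T 2 y ^ 2 / h T 1 y := by
        rw [hβ]
        field_simp
        ring
      have h4 : h T 3 y ≤ (1 + s ^ 2) * (h T 2 y ^ 2 / h T 1 y) := by
        rw [mul_div_assoc', le_div_iff₀ p1]
        exact e2
      have h5 : h T 2 y ^ 2 / h T 1 y ≤ M ^ 3 * ‖y‖ ^ 2 := by
        rw [div_le_iff₀ p1, ← hy]
        have h6 : h T 2 y ^ 2 ≤ (M * h T 1 y) ^ 2 := pow_le_pow_left₀ p2.le m2 2
        calc h T 2 y ^ 2 ≤ (M * h T 1 y) ^ 2 := h6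
          _ = (M ^ 2 * h T 1 y) * h T 1 y := by ring
          _ ≤ (M ^ 2 * h T 1 y) * (M * h T 0 y) :=
              mul_le_mul_of_nonneg_left m1 (by positivity)
          _ = _ := by ring
      rw [h3]
      calc h T 3 y - h T 2 y ^ 2 / h T 1 y ≤ s ^ 2 * (h T 2 y ^ 2 / h T 1 y) := by linarith
        _ ≤ s ^ 2 * (M ^ 3 * ‖y‖ ^ 2) := mul_le_mul_of_nonneg_left h5 (sq_nonneg s)
        _ = s ^ 2 * (M ^ 2 * q ^ 2 * ‖y‖ ^ 2) := by rw [hqM]; ring
        _ = _ := by ring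
    exact (pow_le_pow_iff_left₀ (norm_nonneg _) (by positivity) (by norm_num)).1 (h1.trans h2)
  -- difference of the two constants
  have v3 : |β - α| ≤ s * M := by
    have h1 : 0 ≤ β - α := by
      rw [hα, hβ, sub_nonneg, div_le_div_iff₀ p0 p1]
      have := log_convex hc hh 0 y
      nlinarith
    have h2 : β - α ≤ s ^ 2 * α := by
      have h3 : β ≤ (1 + s ^ 2) * α := by
        rw [hα, hβ, div_le_iff₀ p1, mul_div_assoc', div_mul_eq_mul_div, le_div_iff₀ p0]
        linarith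
      linarith
    rw [abs_of_nonneg h1]
    have h4 : s ^ 2 ≤ s := by nlinarith
    calc β - α ≤ s ^ 2 * α := h2
      _ ≤ s * α := mul_le_mul_of_nonneg_right h4 hα0
      _ ≤ s * M := mul_le_mul_of_nonneg_left hαM hs
  have hdec : cm T i y = (gram T (T i y) - (β : ℂ) • T i y) - T i (gram T y - (α : ℂ) • y) +
      ((β - α : ℝ) : ℂ) • T i y := by
    show gram T (T i y) - T i (gram T y) = _
    rw [map_sub, map_smul]
    push_cast
    rw [sub_smul]
    abel
  have hTy := norm_T_le (T := T) i y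
  have hT2 := norm_T_le (T := T) i (gram T y - (α : ℂ) • y)
  rw [← hM, ← hq] at hTy hT2
  have n1 : ‖((β - α : ℝ) : ℂ) • T i y‖ ≤ s * M * (q * ‖y‖) := by
    rw [norm_smul, Complex.norm_real, Real.norm_eq_abs]
    exact mul_le_mul v3 hTy (norm_nonneg _) (by positivity)
  have n2 : ‖T i (gram T y - (α : ℂ) • y)‖ ≤ q * (s * M * ‖y‖) :=
    hT2.trans (mul_le_mul_of_nonneg_left v1 hq0)
  rw [hdec]
  calc ‖(gram T (T i y) - (β : ℂ) • T i y) - T i (gram T y - (α : ℂ) • y) +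
      ((β - α : ℝ) : ℂ) • T i y‖ ≤ (s * M * q * ‖y‖ + q * (s * M * ‖y‖)) + s * M * (q * ‖y‖) := by
        refine (norm_add_le _ _).trans (add_le_add ?_ n1)
        exact (norm_sub_le _ _).trans (add_le_add v2 n2)
    _ = _ := by ring

/-- The estimate on approximate eigenvectors. -/
theorem est2 (hc : Commuting T) (hh : JointlyHyponormal T) {n : ℕ} (hn : 2 ≤ n) {B : H →L[ℂ] H}
    (hB1 : ∀ x, ⟪x, B x⟫_ℂ = (h T n x : ℂ)) (hB2 : ∀ x, h T (2 * n) x = ‖B x‖ ^ 2)
    (i : Fin d) {s δ : ℝ} (hs : 0 < s) (hδ : 0 < δ) (hδs : 2 * δ ≤ s) {c : ℝ} (hcs : s ≤ c) (y : H)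
    (hy : ‖B y - (c : ℂ) • y‖ ≤ δ * ‖y‖) :
    ‖cm T i y‖ ≤ (6 * (‖gram T‖ * Real.sqrt ‖gram T‖) / s) * δ * ‖y‖ := by
  by_cases hy0 : y = 0
  · subst hy0
    simp
  have hyn : 0 < ‖y‖ := norm_pos_iff.2 hy0
  set e := B y - (c : ℂ) • y with he
  have hBy : B y = (c : ℂ) • y + e := by rw [he]; abel
  set r := (⟪y, e⟫_ℂ).re with hr
  have h1 : h T n y = c * ‖y‖ ^ 2 + r := by
    have h2 := congrArg Complex.re (hB1 y)
    rw [Complex.ofReal_re] at h2
    rw [← h2, hBy, inner_add_right, inner_smul_right, inner_self_eq_norm_sq_to_K, Complex.add_re]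
    congr 1
    have e9 : ((c : ℂ) * ((‖y‖ : ℝ) : ℂ) ^ 2).re = c * ‖y‖ ^ 2 := by
      rw [show ((c : ℂ) * ((‖y‖ : ℝ) : ℂ) ^ 2) = ((c * ‖y‖ ^ 2 : ℝ) : ℂ) by push_cast; ring]
      exact Complex.ofReal_re _
    exact e9
  have hre : |r| ≤ ‖y‖ * ‖e‖ := (Complex.abs_re_le_norm _).trans (norm_inner_le_norm y e)
  have hre2 : |r| ≤ δ * ‖y‖ ^ 2 := by
    refine hre.trans ?_
    calc ‖y‖ * ‖e‖ ≤ ‖y‖ * (δ * ‖y‖) := mul_le_mul_of_nonneg_left hy hyn.le
      _ = _ := by ring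
  have h3 : (c / 2) * ‖y‖ ^ 2 ≤ h T n y := by
    rw [h1]
    have := (abs_le.1 hre2).1
    nlinarith [sq_nonneg ‖y‖]
  have hcpos : 0 < c := by linarith
  have hn0 : 0 < h T n y := lt_of_lt_of_le (by positivity) h3
  have h4 : ‖B y‖ ^ 2 = c ^ 2 * ‖y‖ ^ 2 + 2 * c * r + ‖e‖ ^ 2 := by
    rw [hBy, @norm_add_sq ℂ, norm_smul, mul_pow, inner_smul_left, Complex.conj_ofReal,
      Complex.norm_real, Real.norm_eq_abs, sq_abs]
    have : RCLike.re ((c : ℂ) * ⟪y, e⟫_ℂ) = c * r := by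
      show ((c : ℂ) * ⟪y, e⟫_ℂ).re = _
      rw [Complex.re_ofReal_mul]
    rw [this]
    ring
  have h5 : ‖B y‖ ^ 2 * ‖y‖ ^ 2 - h T n y ^ 2 ≤ δ ^ 2 * ‖y‖ ^ 4 := by
    rw [h1, h4]
    have h6 : ‖e‖ ^ 2 ≤ (δ * ‖y‖) ^ 2 := pow_le_pow_left₀ (norm_nonneg _) hy 2
    have h7 : ‖e‖ ^ 2 * ‖y‖ ^ 2 ≤ (δ * ‖y‖) ^ 2 * ‖y‖ ^ 2 :=
      mul_le_mul_of_nonneg_right h6 (sq_nonneg _)
    nlinarith [sq_nonneg r]
  set w := 2 * δ / s with hw
  have hw0 : 0 ≤ w := by positivity
  have hw1 : w ≤ 1 := (div_le_one hs).2 hδs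
  have h6 : h T (2 * n) y * h T 0 y ≤ (1 + w ^ 2) * h T n y ^ 2 := by
    rw [hB2]
    show ‖B y‖ ^ 2 * ‖y‖ ^ 2 ≤ _
    have h7 : δ ^ 2 * ‖y‖ ^ 4 ≤ w ^ 2 * h T n y ^ 2 := by
      have h8 : (s / 2 * ‖y‖ ^ 2) ^ 2 ≤ h T n y ^ 2 := by
        apply pow_le_pow_left₀ (by positivity)
        refine le_trans ?_ h3
        apply mul_le_mul_of_nonneg_right _ (sq_nonneg _)
        linarith
      calc δ ^ 2 * ‖y‖ ^ 4 = w ^ 2 * (s / 2 * ‖y‖ ^ 2) ^ 2 := by
            rw [hw]
            field_simp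
        _ ≤ _ := mul_le_mul_of_nonneg_left h8 (sq_nonneg _)
    linarith
  have hpos : ∀ m ≤ 2 * n, 0 < h T m y := by
    intro m hm
    rcases (h_nonneg T m y).lt_or_eq with hlt | heq
    · exact hlt
    · exfalso
      have hprop : ∀ k, h T (m + k) y = 0 := by
        intro k
        induction k with
        | zero => exact heq.symm
        | succ k ih => exact h_zero_of hc hh ih
      have h7 := hprop (2 * n - m)
      have e1 : m + (2 * n - m) = 2 * n := by omega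
      rw [e1, hB2] at h7
      have h8 : ‖B y‖ = 0 := pow_eq_zero_iff (by norm_num) |>.1 h7
      have h9 := hB1 y
      rw [norm_eq_zero.1 h8, inner_zero_right] at h9
      have h10 : h T n y = 0 := by exact_mod_cast h9.symm
      linarith
  obtain ⟨r1, r2⟩ := real_lemma (fun m => h T m y) n hn hpos (fun m => log_convex hc hh m y)
    (w ^ 2) h6
  have h7 := est1 hc hh i y (fun m hm => hpos m (by omega)) w hw0 hw1 r1 r2
  refine h7.trans (le_of_eq ?_)
  rw [hw]
  ring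

theorem spectrum_gram {ι : Type*} [Fintype ι] (S : ι → (H →L[ℂ] H)) :
    ∀ t ∈ spectrum ℝ (gram S), 0 ≤ t := by
  intro t ht
  have h1 : 0 ≤ gram S := Finset.sum_nonneg fun j _ => star_mul_self_nonneg _
  exact spectrum_nonneg_of_nonneg h1 ht

/-- A commuting, jointly hyponormal tuple with a spherically quasinormal power is spherically
quasinormal. -/
theorem main {d : ℕ} (T : Fin d → (H →L[ℂ] H)) (hc : Commuting T) (hh : JointlyHyponormal T)
    (n : ℕ) (hn : 1 ≤ n) (hq : SphericallyQuasinormal (pow T n)) : SphericallyQuasinormal T := by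
  rcases Nat.lt_or_ge 1 n with hn2 | hn1
  · have hn2' : 2 ≤ n := hn2
    intro i
    set B := gram (pow T n) with hB
    have hBs : star B = B := gram_star _
    have hB1 : ∀ x, ⟪x, B x⟫_ℂ = (h T n x : ℂ) := by
      intro x
      rw [hB, gram_self, h_eq hc]
    have hB2 : ∀ x, h T (2 * n) x = ‖B x‖ ^ 2 := by
      intro x
      have e1 : 2 * n = n + n := by ring
      have h1 : (h T (2 * n) x : ℂ) = ⟪x, B (B x)⟫_ℂ := by
        rw [e1, h_add hc n n x]
        push_cast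
        rw [hB, gram_inner]
        apply Finset.sum_congr rfl
        intro w _
        rw [← hB1]
        congr 1
        have := congrArg (fun A : H →L[ℂ] H => A x) (hq w)
        exact this.symm
      have h2 : ⟪x, B (B x)⟫_ℂ = ((‖B x‖ ^ 2 : ℝ) : ℂ) := by
        rw [← inner_star_left, hBs, inner_self_eq_norm_sq_to_K]
        push_cast
        rfl
      rw [h2] at h1
      exact_mod_cast h1
    have h1 : cm T i * B = 0 := by
      apply slice_main hBs (spectrum_gram _)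
      intro s hs
      refine ⟨6 * (‖gram T‖ * Real.sqrt ‖gram T‖) / s, by positivity, ?_⟩
      intro δ hδ hδs c hcs y hy
      exact est2 hc hh hn2' hB1 hB2 i hs hδ hδs hcs y hy
    have h2 : ∀ x, B x = 0 → cm T i x = 0 := by
      intro x hx
      have h3 : h T n x = 0 := by
        have := hB1 x
        rw [hx, inner_zero_right] at this
        exact_mod_cast this.symm
      have h4 : h T 1 x = 0 := by
        have e1 : n = (n - 1) + 1 := by omega
        rw [e1] at h3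
        exact h_zero_back hc hh h3
      have h5 : ∀ j, T j x = 0 := by
        intro j
        have h6 : ∑ j, ‖T j x‖ ^ 2 = 0 := h4
        have h7 := (Finset.sum_eq_zero_iff_of_nonneg (fun j _ => sq_nonneg ‖T j x‖)).1 h6 j
          (Finset.mem_univ j)
        exact norm_eq_zero.1 (pow_eq_zero_iff (by norm_num) |>.1 h7)
      show gram T (T i x) - T i (gram T x) = 0
      have h8 : gram T x = 0 := by
        rw [gram_apply]
        apply Finset.sum_eq_zero
        intro j _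
        rw [h5, map_zero]
      rw [h5, h8, map_zero, map_zero, sub_zero]
    have h3 : cm T i = 0 := by
      have h4 : B * star (cm T i) = 0 := by
        have := congrArg star h1
        rw [star_mul, star_zero, hBs] at this
        exact this
      have h5 : star (cm T i) = 0 := by
        ext x
        have h6 : B (star (cm T i) x) = 0 := congrArg (fun A : H →L[ℂ] H => A x) h4
        have h7 := h2 _ h6
        have h8 : ⟪star (cm T i) x, star (cm T i) x⟫_ℂ = 0 := by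
          rw [inner_star_left, h7, inner_zero_right]
        exact inner_self_eq_zero.1 h8
      have := congrArg star h5
      rwa [star_star, star_zero] at this
    have h4 : gram T * T i - T i * gram T = 0 := h3
    exact (sub_eq_zero.1 h4).symm
  · have hn' : n = 1 := by omega
    subst hn'
    intro i
    have h1 : ∀ w : Fin 1 → Fin d, pow T 1 w = T (w 0) := by
      intro w
      rw [pow_succ', pow_zero', mul_one]
    have h2 : ∑ w : Fin 1 → Fin d, star (pow T 1 w) * pow T 1 w = ∑ j, star (T j) * T j := by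
      refine Fintype.sum_equiv (Equiv.funUnique (Fin 1) (Fin d)) _ _ fun w => ?_
      rw [h1]
      rfl
    have h3 := hq (fun _ => i)
    rw [h2, h1] at h3
    exact h3

end

end Q88.Roots
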